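import Pool.Agent.R410.NG.Sh

/-!
# The residue formula for surfaces which are fibred over the line in hyperelliptic curves

Let `M` be a finitely generated field of characteristic zero and of transcendence degree `d` over `ℚ`,
which contains the number field `k`, and let `K = M(w)` be the field of rational functions over `M`: the
function field of a variety over `k` of dimension `d + 1`.  Let `g, n ≥ 1`, and let `a, b, c ∈ M[t][x]`,
where `c` is monic of degree `2g + 1` in `x`, the degrees of `a` and `b` in `x` are less than `2g + 1`, the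
coefficients of `x^j` in `a, b, c` are of degree `≤ 2n(2g + 1 - j)` in `t`, and `b² ≠ 4ac`.  Let `S` be the
surface over `K` with the equation

  `y² = F(t, x)`,  `F = a(t, x) w² + b(t, x) w + c(t, x)`.

It is projective: near `t = ∞` one puts `t = 1 / t'`, `x = x' / t'^{2n}`, `y = y' / t'^{n(2g+1)}`, and the
fibre at `t = ∞` is `y'² = F_∞(x')`, where `F_∞ = ∑_j (the coefficient of t^{2n(2g+1-j)} x^j in F) X^j`; on
every fibre of `S → ℙ¹` there is one more point, which is rational and smooth: the section `O`.  For
`g = 1` the smooth `S` are elliptic surfaces with a section, with irreducible fibres and with `χ(𝒪) = n`: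
rational surfaces for `n = 1` and K3 surfaces for `n = 2`.

The algebraic side.  All the fibres of `S → ℙ¹` are irreducible, and `H¹(S, 𝒪) = 0` as `n ≥ 1`.  Thus, if
`S` is smooth, then `rank NS(S/K) = 2 + rank J(K(t))` (Shioda–Tate), where `J` is the Jacobian of the generic
fibre, and `J(K(t))` is the class group of the ring `K(t)[X, Y] / (Y² - F(t, X))`.  We prove that this
rank is finite, and compute it: it is `σ - ε`, for the field `M(t)`, where `σ` is the number of the
monic irreducible `δ ∈ M(t)[X]` such that `a T² + b T + c` is modulo `δ` the square of a nonzero polynomial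
`r T + s`, and `ε = 1` if `a` is a nonzero square, and `ε = 0` otherwise.

The analytic side: for every model of `K` and of the surface over the integers of `k`, the series of the
averages `𝔅_v` of the traces of the Frobenius on `H²` of the fibres has the residue
`2 + rank J(K(t)) = rank NS(S/K)` at `s = 2`.
-/

set_option autoImplicit false

namespace Pool.Agent.Results.MP_6090f9_nt.HyperellipticSurfaces

open Polynomial NumberField IsDedekindDomain
open Pool.Agent.Y707.PR (HasResidue)

/-- The polynomial `c(t, x) + w b(t, x) + w² a(t, x)` over `K`, as a polynomial in `x` over `K[t]`. -/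
noncomputable def surface {M K : Type} [Field M] [Field K] [Algebra M K] (a b c : M[X][X]) (w : K) :
    K[X][X] :=
  c.map (mapRingHom (algebraMap M K)) + C (C w) * b.map (mapRingHom (algebraMap M K)) +
    C (C (w ^ 2)) * a.map (mapRingHom (algebraMap M K))

/-- A polynomial in `x` over `M[t]` as a polynomial over `M(t)`: the generic fibre. -/
noncomputable def generic {M : Type} [Field M] (p : M[X][X]) : (RatFunc M)[X] :=
  p.map (algebraMap M[X] (RatFunc M))

/-- Modulo `δ`, the polynomial `a T² + b T + c` is the square of a nonzero polynomial `r T + s`. -/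
def IsSplit {M : Type} [Field M] (a b c δ : M[X]) : Prop :=
  ∃ r s : M[X], δ ∣ a - r ^ 2 ∧ δ ∣ b - 2 * r * s ∧ δ ∣ c - s ^ 2 ∧ ¬ (δ ∣ r ∧ δ ∣ s)

/-- The number of the monic irreducible polynomials over which the conic splits. -/
noncomputable def sigma {M : Type} [Field M] (a b c : M[X]) : ℕ :=
  Nat.card {δ : M[X] // δ.Monic ∧ Irreducible δ ∧ IsSplit a b c δ}

open Classical in
/-- `σ - 1` if `a` is a nonzero square, and `σ` otherwise. -/
noncomputable def rho {M : Type} [Field M] (a b c : M[X]) : ℕ :=
  sigma a b c - if a ≠ 0 ∧ IsSquare a then 1 else 0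

/-- The rank of the class group of the ring `K[X, Y] / (Y² - F(X))`. -/
def ClassGroupHasRank {K : Type} [Field K] (F : K[X]) (n : ℕ) : Prop :=
  ∃ _ : IsDomain (AdjoinRoot (X ^ 2 - C F : K[X][X])),
    Module.rank ℤ (Additive (ClassGroup (AdjoinRoot (X ^ 2 - C F : K[X][X])))) = n

/-- The polynomial of the fibre at `t = ∞`: the coefficient of `X ^ j` is the coefficient of
`t ^ (2n(2g + 1 - j)) x ^ j`. -/
noncomputable def atInfinity {R : Type} [CommRing R] (g n : ℕ) (G : R[X][X]) : R[X] :=
  ∑ j ∈ Finset.range (2 * g + 2), C ((G.coeff j).coeff (2 * n * (2 * g + 1 - j))) * X ^ j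

/-- The number of the points over the finite field `F` of the surface with the equation `y² = P(t, x)` and
with the fibre `y² = P'(x)` at `t = ∞`: the points with `t ≠ ∞`, `x ≠ ∞`, the points with `t = ∞`, `x ≠ ∞`,
and the `q + 1` points of the section at `x = ∞`. -/
noncomputable def points (F : Type) [Field F] (P : F[X][X]) (P' : F[X]) : ℕ :=
  Nat.card {Q : F × F × F // Q.2.2 ^ 2 = (P.map (evalRingHom Q.1)).eval Q.2.1} +
    Nat.card {Q : F × F // Q.2 ^ 2 = P'.eval Q.1} + (Nat.card F + 1)

/-- The trace of the Frobenius on `H²` of this surface, `#S(F) - 1 - q²`, if it is smooth (`H¹ = H³ = 0`). -/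
noncomputable def traceTwo (F : Type) [Field F] (P : F[X][X]) (P' : F[X]) : ℝ :=
  (points F P P' : ℝ) - 1 - (Nat.card F : ℝ) ^ 2

/-- The average `𝔅_v = q_v^{-m} ∑ b(fibre)` of the traces on `H²` of the surfaces `y² = G(t, x)` over the
points of `Spec R` above `v`, rational over the residue field of `v`, at which `N` does not vanish. -/
noncomputable def average {k R : Type} [Field k] [NumberField k] [CommRing R] [Algebra (𝓞 k) R]
    (g n : ℕ) (G : R[X][X]) (N : R) (m : ℕ) (v : HeightOneSpectrum (𝓞 k)) : ℝ :=
  ((Nat.card (𝓞 k ⧸ v.asIdeal) : ℝ) ^ m)⁻¹ *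
    ∑ᶠ φ : {φ : R →+* 𝓞 k ⧸ v.asIdeal //
      φ.comp (algebraMap (𝓞 k) R) = Ideal.Quotient.mk v.asIdeal ∧ φ N ≠ 0},
        traceTwo (𝓞 k ⧸ v.asIdeal) (G.map (mapRingHom φ.1)) ((atInfinity g n G).map φ.1)

/-- **The residue formula for the surfaces `y² = a(t, x) w² + b(t, x) w + c(t, x)` over `M(w)`, fibred over
the `t`-line, for an arbitrary finitely generated field `M` of characteristic zero and for every model.** -/
theorem result {k : Type} [Field k] [NumberField k] {M : Type} [Field M] [CharZero M] [Algebra k M]
    (hM : ∃ S : Finset M, Subfield.closure (S : Set M) = ⊤) {d : ℕ} (hd : Algebra.trdeg ℚ M = d)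
    {K : Type} [Field K] [CharZero K] [Algebra M K] {w : K} (hw : Transcendental M w)
    (hK : IntermediateField.adjoin M {w} = ⊤)
    {g n : ℕ} (hg : 1 ≤ g) (hn : 1 ≤ n) {a b c : M[X][X]} (hc : c.Monic)
    (hcd : c.natDegree = 2 * g + 1) (ha : a.natDegree < 2 * g + 1) (hb : b.natDegree < 2 * g + 1)
    (hat : ∀ j, (a.coeff j).natDegree ≤ 2 * n * (2 * g + 1 - j))
    (hbt : ∀ j, (b.coeff j).natDegree ≤ 2 * n * (2 * g + 1 - j))
    (hct : ∀ j, (c.coeff j).natDegree ≤ 2 * n * (2 * g + 1 - j))
    (hΔ : b ^ 2 - 4 * a * c ≠ 0) (hs : (generic (surface a b c w)).Separable) :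
    Algebra.trdeg ℚ K = (d + 1 : ℕ) ∧
    (surface a b c w).Monic ∧ (surface a b c w).natDegree = 2 * g + 1 ∧
    (∀ j, ((surface a b c w).coeff j).natDegree ≤ 2 * n * (2 * g + 1 - j)) ∧
    -- the algebraic side: the rank of `J(K(t))`
    Finite {δ : (RatFunc M)[X] // δ.Monic ∧ Irreducible δ ∧
      IsSplit (generic a) (generic b) (generic c) δ} ∧
    (generic a ≠ 0 ∧ IsSquare (generic a) → 1 ≤ sigma (generic a) (generic b) (generic c)) ∧
    ClassGroupHasRank (generic (surface a b c w)) (rho (generic a) (generic b) (generic c)) ∧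
    -- the analytic side: the residue at `s = 2` of the series of the `𝔅_v`, for every model
    ∀ (R : Type) [CommRing R] [IsDomain R] [Algebra.FiniteType ℤ R] [Algebra R K]
      [IsFractionRing R K] [Algebra (𝓞 k) R],
      (∀ z : 𝓞 k, algebraMap R K (algebraMap (𝓞 k) R z) = algebraMap M K (algebraMap k M z)) →
      ∀ G : R[X][X], G.Monic → G.map (mapRingHom (algebraMap R K)) = surface a b c w →
        ∀ N : R, N ≠ 0 → ∀ S : Finset (HeightOneSpectrum (𝓞 k)),
          HasResidue S (fun v => average g n G N (d + 1) v) 2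
            (2 + rho (generic a) (generic b) (generic c)) := by
  classical
  have hinj : Function.Injective (algebraMap M[X] (RatFunc M)) := RatFunc.algebraMap_injective M
  have hodd : Odd c.natDegree := by rw [hcd]; exact ⟨g, rfl⟩
  have hac : a.natDegree < c.natDegree := by rw [hcd]; exact ha
  have hbc : b.natDegree < c.natDegree := by rw [hcd]; exact hb
  have hcL : CharZero (RatFunc M) := charZero_of_injective_algebraMap
    (algebraMap M (RatFunc M)).injective
  have hcK : CharZero (RatFunc K) := charZero_of_injective_algebraMap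
    (algebraMap K (RatFunc K)).injective
  have ht : Transcendental M (RatFunc.X : RatFunc M) := by
    rw [transcendental_iff_injective]
    intro p q h
    apply RatFunc.algebraMap_injective M
    rwa [RatFunc.aeval_X_left_eq_algebraMap, RatFunc.aeval_X_left_eq_algebraMap] at h
  have htt : Transcendental K (RatFunc.X : RatFunc K) := by
    rw [transcendental_iff_injective]
    intro p q h
    apply RatFunc.algebraMap_injective K
    rwa [RatFunc.aeval_X_left_eq_algebraMap, RatFunc.aeval_X_left_eq_algebraMap] at h
  have hL : IntermediateField.adjoin M {(RatFunc.X : RatFunc M)} = ⊤ := RatFunc.adjoin_X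
  have hK₁ : IntermediateField.adjoin K {(RatFunc.X : RatFunc K)} = ⊤ := RatFunc.adjoin_X
  have hgen : ∀ {E : Type} [Field E] (p : E[X][X]),
      generic p = p.map (aeval (RatFunc.X : RatFunc E) : E[X] →ₐ[E] RatFunc E).toRingHom := by
    intro E _ p
    unfold generic
    congr 1
    refine RingHom.ext fun q => ?_
    exact (RatFunc.aeval_X_left_eq_algebraMap q).symm
  obtain ⟨iL, h1, h2, h3, h4⟩ := Pool.Agent.R410.NG.sf_line (L := RatFunc M) (x₀ := RatFunc.X)
    hw hK ht hL htt hK₁
  have hF : generic (surface a b c w) = Pool.Agent.R410.CB.fq (generic a) (generic b) (generic c)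
      (algebraMap K (RatFunc K) w) := by
    rw [hgen a, hgen b, hgen c, ← h4 a b c, hgen]
    rfl
  have hSp : ∀ {L : Type} [Field L] (a b c δ : L[X]), IsSplit a b c δ ↔
      ∃ r s : L[X], Pool.Agent.R410.CB.Spl a b c δ r s := by
    intro L _ a b c δ
    constructor
    · rintro ⟨r, s, h1, h2, h3, h4⟩
      exact ⟨r, s, h1, h2, h3, h4⟩
    · rintro ⟨r, s, h⟩
      exact ⟨r, s, h.ha, h.hb, h.hc, h.ne⟩
  let e : {δ : (RatFunc M)[X] // δ.Monic ∧ Irreducible δ ∧
      IsSplit (generic a) (generic b) (generic c) δ} ≃
      Pool.Agent.R410.NG.SplT (generic a) (generic b) (generic c) :=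
    Equiv.subtypeEquivRight fun δ => by rw [hSp _ _ _ δ]
  have hσ : sigma (generic a) (generic b) (generic c) =
    Nat.card (Pool.Agent.R410.NG.SplT (generic a) (generic b) (generic c)) := Nat.card_congr e
  have hΔ' : (generic b) ^ 2 - 4 * generic a * generic c ≠ 0 := by
    rw [hgen a, hgen b, hgen c]
    exact Pool.Agent.R410.NG.delta_ne ht hΔ
  have hfin : Finite (Pool.Agent.R410.NG.SplT (generic a) (generic b) (generic c)) :=
    Pool.Agent.R410.NG.finite_spl two_ne_zero hΔ'
  have hndg : ∀ p : M[X][X], (generic p).natDegree = p.natDegree := fun p =>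
    natDegree_map_eq_of_injective hinj p
  have hsq : Squarefree (Pool.Agent.R410.CB.fq (generic a) (generic b) (generic c)
      (algebraMap K (RatFunc K) w)) := by
    rw [← hF]
    exact hs.squarefree
  obtain ⟨r1, r2⟩ := Pool.Agent.R410.NG.rank_cb' h1 h2 (by rw [hndg]; exact hodd)
    (by rw [hndg, hndg]; exact hac) (by rw [hndg, hndg]; exact hbc) hsq hΔ'
  have hnn : Pool.Agent.R410.NG.nn3 (RatFunc.X : RatFunc M) a b c =
      (rho (generic a) (generic b) (generic c) : ℤ) := by
    unfold Pool.Agent.R410.NG.nn3
    rw [← hgen a, ← hgen b, ← hgen c]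
    unfold rho
    rw [hσ]
    by_cases h : generic a ≠ 0 ∧ IsSquare (generic a)
    · rw [if_pos h, if_pos h, Nat.cast_sub (r2 h)]
      push_cast
      rfl
    · rw [if_neg h, if_neg h, Nat.sub_zero, sub_zero]
  have hcoef : ∀ j, (surface a b c w).coeff j = (c.coeff j).map (algebraMap M K) +
      C w * (b.coeff j).map (algebraMap M K) + C (w ^ 2) * (a.coeff j).map (algebraMap M K) := by
    intro j
    unfold surface
    rw [coeff_add, coeff_add, coeff_C_mul, coeff_C_mul, coeff_map, coeff_map, coeff_map]
    rfl
  have hnd : (surface a b c w).natDegree = 2 * g + 1 := by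
    have h5 : (generic (surface a b c w)).natDegree = (surface a b c w).natDegree :=
      natDegree_map_eq_of_injective (RatFunc.algebraMap_injective K) _
    rw [← h5, hF, Pool.Agent.R410.CB.deg_fq (by rw [hndg, hndg]; exact hac)
      (by rw [hndg, hndg]; exact hbc), hndg, hcd]
  have hmon : (surface a b c w).Monic := by
    rw [Monic, leadingCoeff, hnd, hcoef, coeff_eq_zero_of_natDegree_lt ha,
      coeff_eq_zero_of_natDegree_lt hb, ← hcd]
    have : c.coeff c.natDegree = 1 := hc
    rw [this, Polynomial.map_one, Polynomial.map_zero, mul_zero, mul_zero, add_zero, add_zero]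
  refine ⟨Pool.Agent.R410.NG.trdeg_line hd hw hK, hmon, hnd, ?_, Finite.of_equiv _ e.symm, ?_, ?_, ?_⟩
  · intro j
    rw [hcoef]
    refine (natDegree_add_le _ _).trans (max_le ((natDegree_add_le _ _).trans (max_le ?_ ?_)) ?_)
    · rw [natDegree_map]
      exact hct j
    · refine (natDegree_C_mul_le _ _).trans ?_
      rw [natDegree_map]
      exact hbt j
    · refine (natDegree_C_mul_le _ _).trans ?_
      rw [natDegree_map]
      exact hat j
  · rw [hσ]
    exact r2
  · unfold ClassGroupHasRank rho
    rw [hσ, hF]
    exact r1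
  · intro R _ _ _ _ _ _ hk G hG hGK N hN S
    have hmi : Function.Injective (mapRingHom (algebraMap R K)) := by
      intro p q h
      exact Polynomial.map_injective _ (IsFractionRing.injective R K) h
    have hGd : G.natDegree = 2 * g + 1 := by
      rw [← hG.natDegree_map (mapRingHom (algebraMap R K)), hGK, hnd]
    have hG1 : (atInfinity g n G).coeff (2 * g + 1) = 1 := by
      unfold atInfinity
      rw [finset_sum_coeff, Finset.sum_eq_single (2 * g + 1)]
      · rw [coeff_C_mul, coeff_X_pow, if_pos rfl, mul_one, Nat.sub_self, mul_zero]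
        have h5 : G.coeff (2 * g + 1) = 1 := by
          rw [← hGd]
          exact hG
        rw [h5, coeff_one_zero]
      · intro j _ hj
        rw [coeff_C_mul, coeff_X_pow, if_neg (fun h => hj h.symm), mul_zero]
      · intro h
        exact absurd (Finset.mem_range.2 (by omega)) h
    have hG2 : (atInfinity g n G).natDegree ≤ 2 * g + 1 := by
      unfold atInfinity
      refine natDegree_sum_le_of_forall_le _ _ fun j hj => ?_
      refine (natDegree_C_mul_X_pow_le _ _).trans ?_
      have := Finset.mem_range.1 hj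
      omega
    have hG3 : (atInfinity g n G).natDegree = 2 * g + 1 :=
      natDegree_eq_of_le_of_coeff_ne_zero hG2 (by rw [hG1]; exact one_ne_zero)
    have hG' : (atInfinity g n G).Monic := by
      rw [Monic, leadingCoeff, hG3, hG1]
    have h6 := Pool.Agent.R410.NG.residue_surface (k := k) hM hd hw hK ht hL hodd hac hbc hΔ hk hG
      hGK hG' (by rw [hG3]; exact ⟨g, rfl⟩) hN S
    rw [hnn] at h6
    have h7 : ((2 + (rho (generic a) (generic b) (generic c) : ℤ) : ℤ) : ℝ) =
        2 + rho (generic a) (generic b) (generic c) := by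
      push_cast
      rfl
    rw [h7] at h6
    convert h6 using 2 with v
    unfold average
    congr 1
    refine finsum_congr fun φ => ?_
    have hfin := Pool.Agent.H341R2.finite_v v
    let _ : Fintype (𝓞 k ⧸ v.asIdeal) := Fintype.ofFinite _
    set F := 𝓞 k ⧸ v.asIdeal with hFF
    set P := G.map (mapRingHom φ.1) with hP
    have h8 : Nat.card {Q : F × F × F // Q.2.2 ^ 2 = (P.map (evalRingHom Q.1)).eval Q.2.1} =
        ∑ t : F, Nat.card {Q : F × F // Q.2 ^ 2 = (P.map (evalRingHom t)).eval Q.1} := by
      have h9 : {Q : F × F × F // Q.2.2 ^ 2 = (P.map (evalRingHom Q.1)).eval Q.2.1} ≃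
          Σ t : F, {Q : F × F // Q.2 ^ 2 = (P.map (evalRingHom t)).eval Q.1} :=
        { toFun := fun Q => ⟨Q.1.1, Q.1.2, Q.2⟩
          invFun := fun Q => ⟨(Q.1, Q.2.1), Q.2.2⟩
          left_inv := fun _ => rfl
          right_inv := fun _ => rfl }
      rw [Nat.card_congr h9, Nat.card_sigma]
    unfold traceTwo points Pool.Agent.R410.NG.tr2 Pool.Agent.R410.NG.trc
    rw [h8, finsum_eq_sum_of_fintype, Finset.sum_sub_distrib, Finset.sum_const, Finset.card_univ,
      nsmul_eq_mul, ← Nat.card_eq_fintype_card]
    push_cast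
    ring

end Pool.Agent.Results.MP_6090f9_nt.HyperellipticSurfaces
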