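import Pool.Agent.R410.NG.Cj

/-!
# The residue formula for the products of hyperelliptic curves of linear pencils

Let `M` be a finitely generated field of characteristic zero and of transcendence degree `d` over `ℚ`,
which contains the number field `k`, and let `K = M(w)` be the field of rational functions over `M`: the
function field of a variety over `k` of dimension `d + 1`.  Let `C_i : Y² = F_i(X)`, for `i < m`, be
hyperelliptic curves over `K` of the genera `g_i`, where `F_i = c_i + w b_i` with `b_i, c_i ∈ M[X]`,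
`c_i` monic of degree `2 g_i + 1`, `deg b_i ≤ 2 g_i` and `b_i ≠ 0`.  Let `X = C_1 × ... × C_m` and let `J_i`
be the Jacobian of `C_i`.

The algebraic side.  `C_i` has one point at infinity, and it is rational.  Thus
`NS(X/K) = ℤ^m ⊕ ⨁_{i < j} Hom_K(J_i, J_j)` and `Hom_K(J_i, J_j) = J_j(K(C_i)) / J_j(K)`, so that
`rank NS(X/K) = m + ∑_{i < j} (r_{ij} - r_j)` with the ranks `r_j` of `J_j(K)` and `r_{ij}` of
`J_j(K(C_i))`.  For every field `K₁ ⊇ K` the group `J_j(K₁)` is the class group of the
ring `K₁[X, Y] / (Y² - F_j(X))`.  We prove that these ranks are finite, and we compute them: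

* `r_j` is the number of the monic irreducible divisors `δ` of `b_j` in `M[X]` such that `c_j` is a nonzero
  square modulo `δ`;
* `r_{ij} = σ - ε`, for the function field `M(x)`, where `σ` is the number of the
  monic irreducible `δ ∈ M(x)[X]` such that `a T² + c`, with `a = b_j(X) / b_i(x)` and
  `c = c_j(X) - (c_i(x) / b_i(x)) b_j(X)`, is modulo `δ` the square of a nonzero polynomial `r T + s`, and
  `ε = 1` if `a` is a square, and `ε = 0` otherwise.

The analytic side: for every model of `K` and of the curves over the integers of `k`, the series of the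
averages `𝔅_v` of the traces of the Frobenius on `H²` of the fibres has the residue `rank NS(X/K)` at
`s = 2`.
-/

set_option autoImplicit false

namespace Pool.Agent.Results.MP_6090f9_nt.ProductsOfPencils

open Polynomial NumberField IsDedekindDomain
open Pool.Agent.Y707.PR (HasResidue)

/-- The polynomial `c(X) + w b(X) + w² a(X)` over `K`. -/
noncomputable def curve {M K : Type} [Field M] [Field K] [Algebra M K] (a b c : M[X]) (w : K) : K[X] :=
  c.map (algebraMap M K) + C w * b.map (algebraMap M K) + C (w ^ 2) * a.map (algebraMap M K)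

/-- Modulo `δ`, the polynomial `a T² + b T + c` is the square of a nonzero polynomial `r T + s`. -/
def IsSplit {M : Type} [Field M] (a b c δ : M[X]) : Prop :=
  ∃ r s : M[X], δ ∣ a - r ^ 2 ∧ δ ∣ b - 2 * r * s ∧ δ ∣ c - s ^ 2 ∧ ¬ (δ ∣ r ∧ δ ∣ s)

/-- The number of the monic irreducible polynomials over which the conic splits. -/
noncomputable def sigma {M : Type} [Field M] (a b c : M[X]) : ℕ :=
  Nat.card {δ : M[X] // δ.Monic ∧ Irreducible δ ∧ IsSplit a b c δ}

open Classical in
/-- `σ - 1` if `a` is a nonzero square, and `σ` otherwise. -/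
noncomputable def rho {M : Type} [Field M] (a b c : M[X]) : ℕ :=
  sigma a b c - if a ≠ 0 ∧ IsSquare a then 1 else 0

/-- The polynomial `b(x)⁻¹ b'(X)` over `M(x)`. -/
noncomputable def overB {M : Type} [Field M] (b b' : M[X]) : (RatFunc M)[X] :=
  C (aeval (RatFunc.X : RatFunc M) b)⁻¹ * b'.map (algebraMap M (RatFunc M))

/-- The polynomial `c'(X) - (c(x) / b(x)) b'(X)` over `M(x)`. -/
noncomputable def overC {M : Type} [Field M] (b c b' c' : M[X]) : (RatFunc M)[X] :=
  c'.map (algebraMap M (RatFunc M)) -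
    C (aeval (RatFunc.X : RatFunc M) c * (aeval (RatFunc.X : RatFunc M) b)⁻¹) *
      b'.map (algebraMap M (RatFunc M))

/-- The rank of the class group of the ring `K[X, Y] / (Y² - F(X))`. -/
def ClassGroupHasRank {K : Type} [Field K] (F : K[X]) (n : ℕ) : Prop :=
  ∃ _ : IsDomain (AdjoinRoot (X ^ 2 - C F : K[X][X])),
    Module.rank ℤ (Additive (ClassGroup (AdjoinRoot (X ^ 2 - C F : K[X][X])))) = n

/-- `K₁ = K(x, y)` is the function field of the curve `y² = F(x)`. -/
def IsFunctionField {K K₁ : Type} [Field K] [Field K₁] [Algebra K K₁] (F : K[X]) (x y : K₁) : Prop :=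
  Transcendental K x ∧ y ^ 2 = aeval x F ∧ IntermediateField.adjoin K {x, y} = ⊤

/-- The trace of the Frobenius on `H¹` of the curve `Y² = g(X)` over the finite field `F`, for a monic
polynomial `g` of odd degree without multiple roots: the number of the elements of `F` minus the number of
the affine points. -/
noncomputable def traceOne (F : Type) [Field F] (g : F[X]) : ℝ :=
  (Nat.card F : ℝ) - Nat.card {P : F × F // P.2 ^ 2 = g.eval P.1}

/-- The trace of the Frobenius on `H²` of the product of the curves `Y² = p_i(X)`, `i < m`: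
`m q + ∑_{i < j} a_i a_j`. -/
noncomputable def traceTwo {m : ℕ} (F : Type) [Field F] (p : Fin m → F[X]) : ℝ :=
  (m : ℝ) * Nat.card F + ∑ i, ∑ j, if i < j then traceOne F (p i) * traceOne F (p j) else 0

/-- The average `𝔅_v = q_v^{-n} ∑ b(fibre)` of the traces on `H²` of the fibres of the product of the curves
`Y² = G_i(X)` over the points of `Spec R` above `v`, rational over the residue field of `v`, at which `N`
does not vanish. -/
noncomputable def average {k R : Type} [Field k] [NumberField k] [CommRing R] [Algebra (𝓞 k) R] {m : ℕ}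
    (G : Fin m → R[X]) (N : R) (n : ℕ) (v : HeightOneSpectrum (𝓞 k)) : ℝ :=
  ((Nat.card (𝓞 k ⧸ v.asIdeal) : ℝ) ^ n)⁻¹ *
    ∑ᶠ φ : {φ : R →+* 𝓞 k ⧸ v.asIdeal //
      φ.comp (algebraMap (𝓞 k) R) = Ideal.Quotient.mk v.asIdeal ∧ φ N ≠ 0},
        traceTwo (𝓞 k ⧸ v.asIdeal) fun i => (G i).map φ.1

/-- The rank `m + ∑_{i < j} (r_{ij} - r_j)` of the Néron-Severi group of `C_1 × ... × C_m` over `K`. -/
noncomputable def rankNS {M : Type} [Field M] {m : ℕ} (b c : Fin m → M[X]) : ℤ :=
  m + ∑ i, ∑ j, if i < j then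
    ((rho (overB (b i) (b j)) 0 (overC (b i) (c i) (b j) (c j)) : ℤ) - rho 0 (b j) (c j)) else 0

/-- **The residue formula for the products of the hyperelliptic curves `Y² = c_i(X) + w b_i(X)` over
`M(w)`, for an arbitrary finitely generated field `M` of characteristic zero and for every model.** -/
theorem result {k : Type} [Field k] [NumberField k] {M : Type} [Field M] [CharZero M] [Algebra k M]
    (hM : ∃ S : Finset M, Subfield.closure (S : Set M) = ⊤) {d : ℕ} (hd : Algebra.trdeg ℚ M = d)
    {K : Type} [Field K] [CharZero K] [Algebra M K] {w : K} (hw : Transcendental M w)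
    (hK : IntermediateField.adjoin M {w} = ⊤)
    {m : ℕ} {g : Fin m → ℕ} {b c : Fin m → M[X]} (hc : ∀ i, (c i).Monic)
    (hcd : ∀ i, (c i).natDegree = 2 * g i + 1) (hb : ∀ i, (b i).natDegree < 2 * g i + 1)
    (hb0 : ∀ i, b i ≠ 0) (hs : ∀ i, (curve 0 (b i) (c i) w).Separable) :
    Algebra.trdeg ℚ K = (d + 1 : ℕ) ∧
    (∀ i, (curve 0 (b i) (c i) w).Monic ∧ (curve 0 (b i) (c i) w).natDegree = 2 * g i + 1) ∧
    -- the algebraic side: the rank of `J_j(K)`
    (∀ j, ClassGroupHasRank (curve 0 (b j) (c j) w) (rho 0 (b j) (c j))) ∧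
    -- the algebraic side: the rank of `J_j(K(C_i))`, for the function field `K(C_i)` of `C_i`
    (∀ i j, ∀ (K₁ : Type) [Field K₁] [Algebra K K₁] (x y : K₁),
      IsFunctionField (curve 0 (b i) (c i) w) x y →
        ClassGroupHasRank ((curve 0 (b j) (c j) w).map (algebraMap K K₁))
          (rho (overB (b i) (b j)) 0 (overC (b i) (c i) (b j) (c j)))) ∧
    -- the function fields exist
    (∀ i, ∃ (K₁ : Type) (_ : Field K₁) (_ : Algebra K K₁) (x y : K₁),
      IsFunctionField (curve 0 (b i) (c i) w) x y) ∧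
    -- the analytic side: the residue at `s = 2` of the series of the `𝔅_v`, for every model
    ∀ (R : Type) [CommRing R] [IsDomain R] [Algebra.FiniteType ℤ R] [Algebra R K]
      [IsFractionRing R K] [Algebra (𝓞 k) R],
      (∀ z : 𝓞 k, algebraMap R K (algebraMap (𝓞 k) R z) = algebraMap M K (algebraMap k M z)) →
      ∀ G : Fin m → R[X], (∀ i, (G i).Monic) →
        (∀ i, (G i).map (algebraMap R K) = curve 0 (b i) (c i) w) →
          ∀ N : R, N ≠ 0 → ∀ S : Finset (HeightOneSpectrum (𝓞 k)),
            HasResidue S (fun v => average G N (d + 1) v) 2 (rankNS b c) := by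
  classical
  have hF : ∀ i, curve 0 (b i) (c i) w = Pool.Agent.R410.CB.fq 0 (b i) (c i) w := by
    intro i
    rw [Pool.Agent.R410.CB.fq_eq]
    rfl
  have hodd : ∀ i, Odd (c i).natDegree := fun i => by rw [hcd i]; exact ⟨g i, rfl⟩
  have hbc : ∀ i, (b i).natDegree < (c i).natDegree := fun i => by rw [hcd i]; exact hb i
  have h0c : ∀ i, (0 : M[X]).natDegree < (c i).natDegree := fun i => by
    rw [natDegree_zero]
    exact (hodd i).pos
  have hnd : ∀ i, (curve 0 (b i) (c i) w).natDegree = 2 * g i + 1 := fun i => by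
    rw [hF i, Pool.Agent.R410.CB.deg_fq (h0c i) (hbc i), hcd i]
  have hmon : ∀ i, (curve 0 (b i) (c i) w).Monic := by
    intro i
    rw [Monic, leadingCoeff, hnd i]
    unfold curve
    rw [coeff_add, coeff_add, coeff_C_mul, coeff_C_mul, coeff_map, coeff_map, coeff_map,
      coeff_eq_zero_of_natDegree_lt (hb i), ← hcd i]
    have : (c i).coeff (c i).natDegree = 1 := hc i
    rw [this, map_one, map_zero, mul_zero, coeff_zero, map_zero, mul_zero, add_zero, add_zero]
  have hSp : ∀ {L : Type} [Field L] (a b c δ : L[X]), IsSplit a b c δ ↔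
      ∃ r s : L[X], Pool.Agent.R410.CB.Spl a b c δ r s := by
    intro L _ a b c δ
    constructor
    · rintro ⟨r, s, h1, h2, h3, h4⟩
      exact ⟨r, s, h1, h2, h3, h4⟩
    · rintro ⟨r, s, h⟩
      exact ⟨r, s, h.ha, h.hb, h.hc, h.ne⟩
  have hσ : ∀ {L : Type} [Field L] (a b c : L[X]), sigma a b c =
      Nat.card (Pool.Agent.R410.NG.SplT a b c) := fun {L} _ a b c =>
    Nat.card_congr (Equiv.subtypeEquivRight fun δ => by rw [hSp a b c δ])
  have hn1 : ∀ j, rho 0 (b j) (c j) = Pool.Agent.R410.NG.nn1 (b j) (c j) := by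
    intro j
    unfold rho Pool.Agent.R410.NG.nn1
    rw [if_neg (fun h => h.1 rfl), Nat.sub_zero, hσ]
  have hn2 : ∀ i j, rho (overB (b i) (b j)) 0 (overC (b i) (c i) (b j) (c j)) =
      Pool.Agent.R410.NG.nn2 (RatFunc.X : RatFunc M) (b i) (c i) (b j) (c j) := by
    intro i j
    unfold rho
    rw [hσ]
    rfl
  have hsep : ∀ i, (Pool.Agent.R410.CB.fq 0 (b i) (c i) w).Separable := fun i => by
    rw [← hF i]
    exact hs i
  have ht : Transcendental M (RatFunc.X : RatFunc M) := by
    rw [transcendental_iff_injective]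
    intro p q h
    apply RatFunc.algebraMap_injective M
    rwa [RatFunc.aeval_X_left_eq_algebraMap, RatFunc.aeval_X_left_eq_algebraMap] at h
  have hL : IntermediateField.adjoin M {(RatFunc.X : RatFunc M)} = ⊤ := RatFunc.adjoin_X
  have hcL : CharZero (RatFunc M) := charZero_of_injective_algebraMap
    (algebraMap M (RatFunc M)).injective
  have hΔ : ∀ j, (b j) ^ 2 - 4 * (0 : M[X]) * c j ≠ 0 := fun j => by
    rw [mul_zero, zero_mul, sub_zero]
    exact pow_ne_zero 2 (hb0 j)
  refine ⟨Pool.Agent.R410.NG.trdeg_line hd hw hK, fun i => ⟨hmon i, hnd i⟩, ?_, ?_, ?_, ?_⟩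
  · intro j
    obtain ⟨h1, -⟩ := Pool.Agent.R410.NG.rank_cb' hw hK (hodd j) (h0c j) (hbc j)
      (hsep j).squarefree (hΔ j)
    rw [if_neg (fun h => h.1 rfl), Nat.sub_zero] at h1
    unfold ClassGroupHasRank
    rw [hn1, hF]
    exact h1
  · intro i j K₁ _ _ x y h
    have hcK : CharZero K₁ := charZero_of_injective_algebraMap (algebraMap K K₁).injective
    obtain ⟨h1, h2, h3⟩ := h
    have h4 : Pool.Agent.R410.NG.IsCf (Pool.Agent.R410.CB.fq 0 (b i) (c i) w) x y :=
      ⟨h1, by rw [← hF]; exact h2, h3⟩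
    obtain ⟨-, h5, -⟩ := Pool.Agent.R410.NG.pair_main hM hd hw hK ht hL (hb0 i) (hb0 j) (hodd j)
      (hbc j) (hsep j) h4
    unfold ClassGroupHasRank
    rw [hn2, hF]
    exact h5
  · intro i
    obtain ⟨K₁, i1, i2, x, y, h⟩ := Pool.Agent.R410.NG.exists_cf (F := curve 0 (b i) (c i) w)
      (by rw [hnd i]; exact ⟨g i, rfl⟩)
    exact ⟨K₁, i1, i2, x, y, h.tr, h.eq, h.gen⟩
  · intro R _ _ _ _ _ _ hk G hG hGK N hN S
    have h6 := Pool.Agent.R410.NG.residue_products (k := k) hM hd hw hK ht hL hb0 hodd hbc hsep hG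
      (fun i => by rw [hGK, hF]) hN S
    have h7 : (fun v : HeightOneSpectrum (𝓞 k) => (Ideal.absNorm v.asIdeal : ℝ) *
        Pool.Agent.R410.NG.avg (Pool.Agent.R410.NG.w2 m) G N (d + 1) v) =
        fun v => average G N (d + 1) v := by
      funext v
      unfold Pool.Agent.R410.NG.avg Pool.Agent.R410.NG.sR average
      have hq0 : (Nat.card (𝓞 k ⧸ v.asIdeal) : ℝ) ≠ 0 := by
        have := Pool.Agent.H341R2.finite_v v
        exact_mod_cast (Nat.card_pos (α := 𝓞 k ⧸ v.asIdeal)).ne'
      have hqn : (Ideal.absNorm v.asIdeal : ℝ) = (Nat.card (𝓞 k ⧸ v.asIdeal) : ℝ) := rfl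
      have hfv := Pool.Agent.H341R2.finite_v v
      have hfin : Finite (R →+* 𝓞 k ⧸ v.asIdeal) := inferInstance
      rw [hqn, mul_left_comm, mul_finsum]
      congr 1
      refine finsum_congr fun φ => ?_
      unfold Pool.Agent.R410.NG.w2 traceTwo
      rw [mul_add, ← mul_assoc (Nat.card (𝓞 k ⧸ v.asIdeal) : ℝ) (Nat.card (𝓞 k ⧸ v.asIdeal) : ℝ)⁻¹,
        mul_inv_cancel₀ hq0, one_mul, mul_comm (m : ℝ)]
      rfl
    rw [h7] at h6
    have h8 : (m + ∑ i, ∑ j, if i < j then
        ((Pool.Agent.R410.NG.nn2 (RatFunc.X : RatFunc M) (b i) (c i) (b j) (c j) : ℤ) -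
          Pool.Agent.R410.NG.nn1 (b j) (c j)) else 0 : ℤ) = rankNS b c := by
      unfold rankNS
      simp only [hn1, hn2]
    rw [h8] at h6
    exact h6

end Pool.Agent.Results.MP_6090f9_nt.ProductsOfPencils
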