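import Pool.Agent.R461.RF.Main

/-!
# The residue formula for the fibre products of any fibration with the members of a family

`K` is the number field `k` of the question, `f : 𝒳 → 𝒴` any fibration over `K` (`Fibration K`) with
geometrically irreducible fibres, `X` its generic fibre, `B` its Chow trace, and `𝔅_v` the numbers of the
question; `(s - 2) F(s)` is `res R 𝔅 s`, and the question is whether it tends to `rank NS(X/K(𝒴))` for
`s → 2+`.

For a smooth projective variety `C` over `K` (`Var K`, for example a curve) `f × C` is the fibration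
`𝒳 × C → 𝒴`, with the fibres `X_t × C` (`times f C E` with `IsProduct f C E`).  The group
`NS(X × C/K(𝒴))` is, up to torsion, the sum of `NS(X/K(𝒴))`, of `NS(C/K)` and of the group of the
homomorphisms over `K` from the Albanese variety of `C` to `B`.

`(C_b)` is a family of such varieties, finite or infinite, such that the residues at `s = 2` of the series
for `a_v(C_b) a_v(C_b')` are `0` for `b ≠ b'` and `e_b > 0` for `b = b'` (`IsFamily`); this is known for
all elliptic curves over `ℚ` up to isogeny, with `e_b = 1`.  If `H¹(B)` contains exactly `n_b` copies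
of `H¹(C_b)`, the group of the homomorphisms has the rank `n_b e_b` for these curves, by the theorem of
Faltings.  `res (C b).R (C b).b s` is the same function for the traces on `H²(C_b)`; for a curve
these are the numbers `q_v`, and it tends to `1`, by part III.
The definitions are in `Pool.Agent.R461.RF.Defs` and `Pool.Agent.W353.FB.Defs`.
-/

set_option autoImplicit false

namespace Pool.Agent.Results.MP_6090f9_nt.ProductsWithFamilies

open NumberField IsDedekindDomain Filter Topology
open Pool.Agent.W353.FB (Fibration ValueAt)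
open Pool.Agent.R461.RF

/-- **Residues for the products with the members of a family.**  Let `f` be any fibration over `K` with
geometrically irreducible fibres, `B` its Chow trace, `𝔄* = O(1)`.

I. Let `(C_b)` be a family as above, `n_b` numbers, almost all zero, and `r` the dimension of the
complement in `H¹(B)` of the sum of `n_b` copies of the `H¹(C_b)`.  Let, for `s > 2`,
`x_b(s) = res(f × C_b, s) - res(f, s) - res(C_b, s) - n_b e_b`.
1. For every finite set `S` of indices and `η > 0`, for all `s > 2` close to `2`,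
`∑_{b ∈ S} x_b(s)² / e_b ≤ r² + η`.
2. For `δ > 0` at most `r² / δ²` indices `b` satisfy `|x_b(s)| ≥ δ √e_b` for all `s > 2` close to `2`.
3. If the family is countable, every sequence `s_j → 2+` has a subsequence along which all `x_b(s_j)`
converge, to limits `y_b` with `∑_b y_b² / e_b ≤ r²`.
4. If `r = 0`, then `x_b(s)` tends to `0` for all `b`: the residue formulas for `f` and for `C_b` imply the
residue formula for `f × C_b`, and those for `f × C_b` and `C_b` imply that for `f`.

II. If the Chow trace is zero, that is the traces on `H¹(B)` are zero, then for every `C` the difference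
`res(f × C, s) - res(f, s) - res(C, s)` tends to `0`; so for every curve `C` the residue formula for `f` and
the residue formula for `f × C`, where the rank is larger by `1`, are equivalent.

III. `(s - 2) ∑_{v ∉ R} q_v log(q_v) q_v^{-s}` tends to `1`. -/
theorem result (K : Type) [Field K] [NumberField K] (f : Fibration K) (hf : IsConnected f)
    (k g : ℕ) (hg : 1 ≤ g) (B : Set (MvPolynomial (Fin k) (𝓞 K)))
    (R₁ : Finset (HeightOneSpectrum (𝓞 K))) (𝔄 : HeightOneSpectrum (𝓞 K) → ℝ)
    (h𝔄 : IsNagao f B g R₁ 𝔄) (R : Finset (HeightOneSpectrum (𝓞 K)))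
    (𝔅 : HeightOneSpectrum (𝓞 K) → ℝ) (h𝔅 : IsAverages f R 𝔅) :
    (∀ (β : Type) (C : β → Var K) (e : β → ℝ), IsFamily C e → ∀ (n : β →₀ ℕ) (r : ℕ),
      Complement B g C n r → ∀ (k' : β → ℕ)
      (E : ∀ b, Set (MvPolynomial (Fin (k' b)) (MvPolynomial (Fin f.l) (𝓞 K)))),
      (∀ b, IsProduct f (C b) (E b)) → ∀ (R' : β → Finset (HeightOneSpectrum (𝓞 K)))
      (𝔅' : β → HeightOneSpectrum (𝓞 K) → ℝ),
      (∀ b, IsAverages (times f (C b) (E b)) (R' b) (𝔅' b)) →
      (∀ (S : Finset β) (η : ℝ), 0 < η → ∀ᶠ s : ℝ in 𝓝[>] 2,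
        ∑ b ∈ S, (res (R' b) (𝔅' b) s - res R 𝔅 s - res (C b).R (C b).b s - n b * e b) ^ 2 / e b ≤
          (r : ℝ) ^ 2 + η) ∧
      (∀ δ : ℝ, 0 < δ →
        {b : β | ∀ᶠ s : ℝ in 𝓝[>] 2, δ * √(e b) ≤
          |res (R' b) (𝔅' b) s - res R 𝔅 s - res (C b).R (C b).b s - n b * e b|}.Finite ∧
        ({b : β | ∀ᶠ s : ℝ in 𝓝[>] 2, δ * √(e b) ≤
          |res (R' b) (𝔅' b) s - res R 𝔅 s - res (C b).R (C b).b s - n b * e b|}.ncard : ℝ) ≤
            (r : ℝ) ^ 2 / δ ^ 2) ∧
      (Countable β → ∀ s : ℕ → ℝ, Tendsto s atTop (𝓝[>] 2) → ∃ φ : ℕ → ℕ, StrictMono φ ∧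
        ∃ y : β → ℝ, (∀ b, Tendsto (fun j => res (R' b) (𝔅' b) (s (φ j)) - res R 𝔅 (s (φ j)) -
          res (C b).R (C b).b (s (φ j)) - n b * e b) atTop (𝓝 (y b))) ∧
          Summable (fun b => y b ^ 2 / e b) ∧ ∑' b, y b ^ 2 / e b ≤ (r : ℝ) ^ 2) ∧
      (r = 0 → ∀ b, Tendsto (fun s => res (R' b) (𝔅' b) s - res R 𝔅 s -
        res (C b).R (C b).b s - n b * e b) (𝓝[>] 2) (𝓝 0))) ∧
    ((∀ᶠ v in cofinite, ValueAt (traceValue B g 1) (F := K) v 0) →
      ∀ (C : Var K) (k' : ℕ) (E : Set (MvPolynomial (Fin k') (MvPolynomial (Fin f.l) (𝓞 K)))),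
        IsProduct f C E → ∀ (R' : Finset (HeightOneSpectrum (𝓞 K)))
        (𝔅' : HeightOneSpectrum (𝓞 K) → ℝ), IsAverages (times f C E) R' 𝔅' →
        Tendsto (fun s => res R' 𝔅' s - res R 𝔅 s - res C.R C.b s) (𝓝[>] 2) (𝓝 0)) ∧
    ∀ R' : Finset (HeightOneSpectrum (𝓞 K)),
      Tendsto (res R' fun v => (Ideal.absNorm v.asIdeal : ℝ)) (𝓝[>] 2) (𝓝 1) := by
  classical
  refine ⟨fun β C e hC n r hB k' E hE R' 𝔅' h𝔅' => ?_, fun h0 C k' E hE R' 𝔅' h𝔅' => ?_,
    fun R' => res_norm R'⟩
  · have h1 := fun (S : Finset β) (η : ℝ) (hη : 0 < η) =>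
      main hf hg hC hB h𝔄 h𝔅 hE h𝔅' S hη
    obtain ⟨h2, h3, h4⟩ := conseq (fun b => (hC.1 b).1)
      (x := fun b s => res (R' b) (𝔅' b) s - res R 𝔅 s - res (C b).R (C b).b s - n b * e b)
      (r := (r : ℝ)) h1
    exact ⟨h1, h2, h3, fun hr => h4 (by rw [hr, Nat.cast_zero])⟩
  · have hB : Complement B g (fun b : Empty => b.elim) 0 0 := h0.mono fun v hv => by
      refine ⟨0, fun j => j.elim0, hv, fun j => j.elim0, ?_⟩
      simp
    exact trace_zero hf hg hB h𝔄 h𝔅 C hE h𝔅'

end Pool.Agent.Results.MP_6090f9_nt.ProductsWithFamilies
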