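import Pool.Agent.R385.TL.Laws

/-!
# The residue formula for fibrations in degree two and the frequency of large values

`f : 𝒳 → 𝒴` is a fibration over a number field `K`, `F` a number field containing `K`, `R` a finite set
of primes of `F`, and `b v = 𝔅_v / q_v` for the primes `v` of `F` outside `R`, where `𝔅_v` is the average
over the fibres of the traces of the Frobenius on `H²`; these numbers are bounded, by the theorem of
Deligne (`IsSystem`).  Let `|b v| ≤ β` and `U(t) = ∑ (β + b_v) cos(t log q_v) / q_v`.

`RareF κ U`: for some `c > 0` and all large `V`, the set where `U ≥ V` has, in every interval of length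
at least `T₀(V)`, a proportion at most `exp(-exp(c exp(V / κ)))`.  `FreqF κ U`: the proportion is at
least this, for some `c > 0`.  `TailExponent κ U`: `RareF κ' U` for all `κ' > κ`, and `FreqF κ' U` for all
`κ' < κ`.
-/

set_option autoImplicit false

namespace Pool.Agent.Results.MP_6090f9_nt.TailExponents

open NumberField IsDedekindDomain Filter Topology
open Pool.Agent.W353.FB (Fibration IsSystem degreeTwoValue residue)
open Pool.Agent.R385.FG (cosSeries logSeries HasResidue)
open Pool.Agent.R385.TL

/-- The statements for a bound `β` of the numbers `|b v|`: the laws of `TailLaws`; the existence of a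
limit `r` of `(s - 1) ∑ b_v (log q_v) q_v^{-s} = (s - 1) ∑ 𝔅_v (log q_v) q_v^{-s-1}` for `s → 1+`, and of
a simple pole with the residue `r`: if there is such an `r`, then it is the number `r` such that `β + r`
is the tail exponent; and if there is such a pole, then `U ≥ V` has a frequency between
`exp(-exp(c exp(V / (β + r))))` and `exp(-exp(c' exp(V / (β + r))))`. -/
def Statement {F : Type} [Field F] [NumberField F] (R : Finset (HeightOneSpectrum (𝓞 F)))
    (b : HeightOneSpectrum (𝓞 F) → ℝ) (β : ℝ) : Prop :=
  TailLaws R b β ∧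
  Decides β (cosSeries R fun v => β + b v) (fun r => Tendsto (residue R b) (𝓝[>] 1) (𝓝 r)) ∧
  Decides β (cosSeries R fun v => β + b v) (fun r => HasResidue (logSeries R b) 1 r) ∧
  ∀ r : ℝ, 0 < β + r → HasResidue (logSeries R b) 1 r →
    RareF (β + r) (cosSeries R fun v => β + b v) ∧ FreqF (β + r) (cosSeries R fun v => β + b v)

theorem result (K : Type) [Field K] [NumberField K] (f : Fibration K)
    (F : Type) [Field F] [NumberField F] [Algebra K F] (R : Finset (HeightOneSpectrum (𝓞 F)))
    (b : HeightOneSpectrum (𝓞 F) → ℝ) (hb : IsSystem (degreeTwoValue f) R b) :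
    (∃ β : ℝ, 0 ≤ β ∧ ∀ v, v ∉ R → |b v| ≤ β) ∧
    ∀ β : ℝ, 0 ≤ β → (∀ v, v ∉ R → |b v| ≤ β) → Statement R b β := by
  refine ⟨?_, fun β hβ hb => ⟨tailLaws hb hβ, decides_residue hb hβ, decides_hasResidue hb hβ,
    fun r hr h => both_of_hasResidue hb hβ hr h⟩⟩
  obtain ⟨C, hC⟩ := hb.2
  exact ⟨|C|, abs_nonneg C, fun v hv => (hC v hv).trans (le_abs_self C)⟩

end Pool.Agent.Results.MP_6090f9_nt.TailExponents
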